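import Mathlib

set_option autoImplicit false

open Cardinal Ordinal Set Filter

namespace Pool.Agent.H.MP_096ca0_lc

/-- ordinals below omega 2 -/
abbrev K : Type := (ω_ 2).ToType

/-- p is a subtree with stem s, and every node of p above s has aleph 2 many successors in p -/
def Stem (p : Set (List K)) (s : List K) : Prop :=
  s ∈ p ∧ (∀ t ∈ p, ∀ u, u <+: t → u ∈ p) ∧ (∀ t ∈ p, t <+: s ∨ s <+: t) ∧
    ∀ t ∈ p, s <+: t → #{a : K | t ++ [a] ∈ p} = ℵ_ 2

lemma reg : (ℵ_ 2 : Cardinal.{0}).IsRegular := by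
  simpa [one_add_one_eq_two] using isRegular_aleph_add_one 1

lemma mkK : #K = ℵ_ 2 := by simp

/-- the filter of sets with small complement -/
noncomputable def Lf : Filter K := cocardinal K reg

lemma fr {p : K → Prop} : (∃ᶠ a in Lf, p a) ↔ #{a | p a} = ℵ_ 2 :=
  frequently_cocardinal.trans ⟨fun h => le_antisymm (mkK ▸ mk_set_le _) h, fun h => h.ge⟩

lemma ev {ι : Type} (h : #ι < ℵ_ 2) {p : K → ι → Prop} (k : ∀ i, ∀ᶠ a in Lf, p a i) :
    ∀ᶠ a in Lf, ∀ i, p a i :=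
  (eventually_cardinal_forall (l := cocardinal K reg) h).2 k

/-- conditions with their stems -/
abbrev Pos : Type := {x : Set (List K) × List K // Stem x.1 x.2}

/-- one step extension -/
def SE (w : Pos) (a : K) (v : Pos) : Prop := v.1.2 = w.1.2 ++ [a] ∧ v.1.1 ⊆ w.1.1

/-- pure extension -/
def PE (w v : Pos) : Prop := v.1.2 = w.1.2 ∧ v.1.1 ⊆ w.1.1

lemma rs (w : Pos) {t : List K} (h : t ∈ w.1.1) (e : w.1.2 <+: t) :
    ∃ v : Pos, v.1.2 = t ∧ v.1.1 ⊆ w.1.1 := by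
  obtain ⟨w1, w2, w3, w4⟩ := w.2
  refine ⟨⟨({u ∈ w.1.1 | u <+: t ∨ t <+: u}, t), ⟨h, .inl List.prefix_rfl⟩, fun u a v b =>
    ⟨w2 u a.1 v b, a.2.elim (fun c => .inl (b.trans c)) fun c =>
      List.prefix_or_prefix_of_prefix b c⟩, fun u a => a.2, fun u a b => ?_⟩, rfl, fun _ a => a.1⟩
  rw [← w4 u a.1 (e.trans b)]
  congr 2
  ext x
  exact and_iff_left (.inr (b.trans (List.prefix_append _ _)))

lemma se (w : Pos) : ∃ᶠ a in Lf, ∃ v, SE w a v :=
  (fr.2 (w.2.2.2.2 _ w.2.1 List.prefix_rfl)).mono fun _ h => rs w h (List.prefix_append _ _)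

lemma lg (w : Pos) (n : ℕ) : ∃ v : Pos, v.1.1 ⊆ w.1.1 ∧ n ≤ v.1.2.length := by
  induction n with
  | zero => exact ⟨w, subset_rfl, Nat.zero_le _⟩
  | succ n h =>
    obtain ⟨v, a, b⟩ := h
    obtain ⟨x, u, c, d⟩ := (se v).exists
    exact ⟨u, d.trans a, by simp [c, b]⟩

lemma sl {r v : Pos} (h : v.1.1 ⊆ r.1.1) : r.1.2 <+: v.1.2 := by
  refine (r.2.2.2.1 _ (h v.2.1)).elim (fun ⟨m, e⟩ => ?_) id
  cases m with
  | nil => exact e ▸ by simp
  | cons b m =>
    obtain ⟨a, ⟨x, c, d⟩, f⟩ := ((se v).and_eventually (eventually_cocardinal_ne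
      (hreg := reg) b)).exists
    have := r.2.2.2.1 _ (h (d x.2.1))
    rw [c, ← e, List.prefix_append_right_inj, List.prefix_append_right_inj] at this
    exact (f (this.elim (fun k => (List.cons_prefix_cons.1 k).1)
      fun k => (List.cons_prefix_cons.1 k).1.symm)).elim

/-- fusion -/
lemma fu (W : Set Pos) (h : ∀ w ∈ W, ∃ᶠ a in Lf, ∃ v ∈ W, SE w a v) {w : Pos} (hw : w ∈ W) :
    ∃ r, PE w r ∧ ∀ v : Pos, v.1.1 ⊆ r.1.1 → ∃ x ∈ W, PE x v := by
  classical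
  have : ∀ (w : Pos) (a : K), ∃ v : Pos, (∃ v ∈ W, SE w a v) → v ∈ W ∧ SE w a v := fun w a => by
    by_cases k : ∃ v ∈ W, SE w a v
    exacts [⟨k.choose, fun _ => k.choose_spec⟩, ⟨w, fun e => (k e).elim⟩]
  choose nx hn using this
  let st : List K → Pos := List.rec w fun a _ v => nx v a
  let ok : List K → Prop := List.rec True fun a l P => P ∧ ∃ v ∈ W, SE (st l) a v
  have h1 : ∀ l, ok l → st l ∈ W ∧ (st l).1.2 = w.1.2 ++ l.reverse := fun l => by
    induction l with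
    | nil => exact fun _ => ⟨hw, (List.append_nil _).symm⟩
    | cons a l k => exact fun e => ⟨(hn _ _ e.2).1, (hn _ _ e.2).2.1.trans (by simp [(k e.1).2])⟩
  have h2 : ∀ m l, ok (m ++ l) → ok l ∧ (st (m ++ l)).1.1 ⊆ (st l).1.1 := fun m l => by
    induction m with
    | nil => exact fun e => ⟨e, subset_rfl⟩
    | cons a m k => exact fun e => ⟨(k e.1).1, (hn _ _ e.2).2.2.trans (k e.1).2⟩
  have h3 : ∀ t l, ok l → w.1.2 <+: t → t <+: (st l).1.2 → ∃ m, ok m ∧ (st m).1.2 = t ∧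
      (st l).1.1 ⊆ (st m).1.1 := by
    rintro _ l a ⟨m, rfl⟩ b
    rw [(h1 l a).2, List.prefix_append_right_inj, ← List.reverse_suffix, List.reverse_reverse] at b
    obtain ⟨k, rfl⟩ := b
    exact ⟨_, (h2 _ _ a).1, by rw [(h1 _ (h2 _ _ a).1).2, List.reverse_reverse], (h2 _ _ a).2⟩
  refine ⟨⟨({t | ∃ l, ok l ∧ t <+: (st l).1.2}, w.1.2), ⟨[], trivial, List.prefix_rfl⟩,
    ?_, ?_, ?_⟩, ⟨rfl, ?_⟩, fun v e => ?_⟩
  · rintro t ⟨l, a, b⟩ u c
    exact ⟨l, a, c.trans b⟩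
  · rintro t ⟨l, a, b⟩
    exact List.prefix_or_prefix_of_prefix b ((h1 l a).2 ▸ List.prefix_append _ _)
  · rintro t ⟨l, a, b⟩ c
    obtain ⟨m, d, rfl, -⟩ := h3 t l a c b
    exact fr.1 ((h _ (h1 m d).1).mono fun x y => ⟨x :: m, ⟨d, y⟩, (hn _ _ y).2.1 ▸ List.prefix_rfl⟩)
  · rintro t ⟨l, a, b⟩
    exact w.2.2.1 _ ((h2 l [] (by simpa)).2 (by simpa using (st l).2.1)) _ b
  · have z := sl e
    obtain ⟨l, a, b⟩ := e v.2.1
    obtain ⟨m, d, f, -⟩ := h3 _ l a z b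
    refine ⟨_, (h1 m d).1, f.symm, fun t ht => (v.2.2.2.1 t ht).elim
      (fun c => (st m).2.2.1 _ (st m).2.1 _ (f ▸ c)) fun c => ?_⟩
    obtain ⟨k, a, b⟩ := e ht
    obtain ⟨n, g, i, j⟩ := h3 _ k a z (c.trans b)
    have : n = m := List.reverse_injective (List.append_cancel_left
      (((h1 n g).2.symm.trans (i.trans f.symm)).trans (h1 m d).2))
    exact (st m).2.2.1 _ (this ▸ j (st k).2.1) _ b

/-- losing positions with a rank -/
inductive L {P : Type} (C : P → Prop) (N : P → Bool → K → Prop) (nx : P → Bool → K → P) :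
    Ordinal.{0} → P → Prop
  | stop (α : Ordinal.{0}) (w : P) : ¬ C w → L C N nx α w
  | step (α : Ordinal.{0}) (w : P) (i : Bool) (A : Set K) (β : K → Ordinal.{0}) : A ∈ Lf →
      (∀ a, β a < α) → (∀ a ∈ A, N w i a → L C N nx (β a) (nx w i a)) → L C N nx α w

lemma game {P T : Type} (hT : #T < ℵ_ 2) (C : T → P → Prop) (N : P → Bool → K → P → Prop)
    (hN : ∀ w i, ∃ᶠ a in Lf, ∃ v, N w i a v) (hC : ∀ s : List Bool → P, ∃ u, ∀ l, C u (s l))
    (w : P) : ∃ u, ∃ W : Set P, w ∈ W ∧ ∀ w ∈ W, C u w ∧ ∀ i, ∃ᶠ a in Lf, ∃ v ∈ W, N w i a v := by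
  classical
  have : ∀ w i a, ∃ v, (∃ v, N w i a v) → N w i a v := fun w i a => by
    by_cases k : ∃ v, N w i a v
    exacts [⟨k.choose, fun _ => k.choose_spec⟩, ⟨w, fun e => (k e).elim⟩]
  choose nx hn using this
  let M := fun u => L (C u) (fun w i a => ∃ v, N w i a v) nx
  suffices h : ∃ u, ∀ α, ¬ M u α w by
    obtain ⟨u, h⟩ := h
    refine ⟨u, {w | ∀ α, ¬ M u α w}, h, fun w h => ⟨not_not.1 fun k => h 0 (.stop _ _ k),
      fun i k => ?_⟩⟩
    have : ∀ a, ∃ β, (¬ ∃ v ∈ {w | ∀ α, ¬ M u α w}, N w i a v) → (∃ v, N w i a v) →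
        M u β (nx w i a) := fun a => by
      by_contra! e
      exact (e 0).1 _ (fun β => (e β).2.2) (hn _ _ _ (e 0).2.1)
    choose β hβ using this
    exact h _ (.step (⨆ a, β a + 1) w i _ β k (Ordinal.lt_iSup_add_one β) hβ)
  by_contra! k
  let ρ := fun u w => sInf {α | M u α w}
  let Q := fun u w i a => (∃ v, N w i a v) → ∃ β < ρ u w, M u β (nx w i a)
  have : ∀ w i, ∃ a, (∃ v, N w i a v) ∧ ∀ u, (∀ᶠ a in Lf, Q u w i a) → Q u w i a := fun w i =>
    ((hN w i).and_eventually (ev hT fun u => by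
      by_cases e : ∀ᶠ a in Lf, Q u w i a
      exacts [e.mono fun _ a _ => a, .of_forall fun _ a => (e a).elim])).exists
  choose g g1 g2 using this
  obtain ⟨u, hu⟩ := hC (List.rec w fun i _ v => nx v i (g v i))
  have : ∀ α l, ¬ M u α (List.rec w (fun i _ v => nx v i (g v i)) l) := fun α => by
    induction α using WellFoundedLT.induction with | _ α ih => ?_
    intro l e
    have e2 := csInf_mem (s := {α | M u α _}) ⟨α, e⟩
    have e3 := csInf_le' (s := {α | M u α _}) e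
    generalize hx : List.rec (motive := fun _ => P) w (fun i _ v => nx v i (g v i)) l = x at *
    cases e2 with
    | stop _ _ c => exact c (hx ▸ hu l)
    | step _ _ i A β a b c =>
      obtain ⟨γ, d, f⟩ := g2 x i u (mem_of_superset a fun y hy z => ⟨_, b y, c y hy z⟩) (g1 x i)
      subst hx
      exact ih γ (d.trans_le e3) (i :: l) f
  exact (k u).elim fun α => this α []

end Pool.Agent.H.MP_096ca0_lc
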